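import Mathlib

namespace Pool.Agent.Results.MP_1d57ab_an.NotHered

open Filter Topology Set TopologicalSpace

def visits {X : Type*} (T : X → X) (x : X) (V : Set X) : Set ℕ := {n | T^[n] x ∈ V}

def Hyp {X : Type*} [TopologicalSpace X] (F : Set (Set ℕ)) (T : X → X) : Prop :=
  ∃ x, ∀ V, IsOpen V → V.Nonempty → visits T x V ∈ F

def Hered {X : Type*} [TopologicalSpace X] (F : Set (Set ℕ)) (T : X → X) : Prop :=
  ∀ (I : Type) [Countable I] (V : I → Set X) (A : I → Set ℕ),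
    (∀ i, IsOpen (V i) ∧ (V i).Nonempty) → (∀ i, A i ∈ F) → ∃ x, ∀ i, visits T x (V i) ∩ A i ∈ F

variable (𝕜 : Type) [RCLike 𝕜]

def SumHyp {X : Type*} [TopologicalSpace X] (F : Set (Set ℕ)) (T : X → X) : Prop :=
  ∀ (Y : Type) [AddCommGroup Y] [Module 𝕜 Y] [TopologicalSpace Y] [IsTopologicalAddGroup Y]
    [ContinuousSMul 𝕜 Y] [PolishSpace Y] (S : Y →L[𝕜] Y), Hyp F S → Hyp F (Prod.map S T)

abbrev L : Type := lp (fun _ : ℕ => 𝕜) 1

noncomputable def W (n : ℕ) : ℝ := (n.sqrt : ℝ) + 1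

theorem W0 (n : ℕ) : 0 < W n := by unfold W; positivity

theorem W2 (n : ℕ) : W (n + 1) / W n ≤ 2 := by
  have : ((n + 1).sqrt : ℝ) ≤ n.sqrt + 1 := by exact_mod_cast Nat.sqrt_succ_le_succ_sqrt n
  rw [div_le_iff₀ (W0 n)]; unfold W
  linarith [(Nat.cast_nonneg n.sqrt : (0 : ℝ) ≤ _)]

theorem sm (x : L 𝕜) : Summable fun n => ‖x n‖ := by
  simpa using (lp.memℓp x).summable (by simp)

theorem nm (x : L 𝕜) : ‖x‖ = ∑' n, ‖x n‖ := by
  simpa using lp.norm_eq_tsum_rpow (by simp) x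

theorem bd (x : L 𝕜) (n : ℕ) : ‖((W (n + 1) / W n : ℝ) : 𝕜) * x (n + 1)‖ ≤ 2 * ‖x (n + 1)‖ := by
  rw [norm_mul, RCLike.norm_ofReal, abs_of_pos (div_pos (W0 _) (W0 _))]
  exact mul_le_mul_of_nonneg_right (W2 n) (norm_nonneg _)

theorem sm2 (x : L 𝕜) : Summable fun n => 2 * ‖x (n + 1)‖ :=
  ((summable_nat_add_iff 1).2 (sm 𝕜 x)).mul_left 2

noncomputable def B0 : L 𝕜 →ₗ[𝕜] L 𝕜 where
  toFun := fun x => ⟨fun n => ((W (n + 1) / W n : ℝ) : 𝕜) * x (n + 1), memℓp_gen (by
    simpa using (sm2 𝕜 x).of_nonneg_of_le (fun _ => norm_nonneg _) (bd 𝕜 x))⟩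
  map_add' := fun x y => lp.ext (funext fun n => mul_add _ _ _)
  map_smul' := fun c x => lp.ext (funext fun n => mul_left_comm _ _ _)

noncomputable def B : L 𝕜 →L[𝕜] L 𝕜 := (B0 𝕜).mkContinuous 2 fun x => by
  have h : ∑' n, ‖B0 𝕜 x n‖ ≤ ∑' n, 2 * ‖x (n + 1)‖ :=
    (sm 𝕜 (B0 𝕜 x)).tsum_le_tsum (bd 𝕜 x) (sm2 𝕜 x)
  rw [tsum_mul_left, ← nm] at h
  have := (sm 𝕜 x).tsum_eq_zero_add
  rw [← nm] at this
  linarith [norm_nonneg (x 0)]

theorem Bs (n : ℕ) (c : 𝕜) (x : L 𝕜) : (B 𝕜)^[n] (c • x) = c • (B 𝕜)^[n] x := by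
  induction n with
  | zero => rfl
  | succ n ih => rw [Function.iterate_succ_apply', Function.iterate_succ_apply', ih, map_smul]

theorem Bn (n : ℕ) : ∀ (x : L 𝕜) (k : ℕ),
    (B 𝕜)^[n] x k = ((W (k + n) / W k : ℝ) : 𝕜) * x (k + n) := by
  induction n with
  | zero => intro x k; simp [(W0 k).ne']
  | succ n ih =>
    intro x k
    rw [Function.iterate_succ_apply, ih]
    change _ * (((W (k + n + 1) / W (k + n) : ℝ) : 𝕜) * x (k + n + 1)) = _
    rw [← mul_assoc, ← RCLike.ofReal_mul, ← add_assoc]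
    congr 2
    field_simp [W0, (W0 _).ne']

theorem dns (S : Submodule 𝕜 (L 𝕜)) (h : ∀ k, lp.single 1 k (1 : 𝕜) ∈ S) : Dense (S : Set (L 𝕜)) :=
  fun x => mem_closure_of_tendsto (lp.hasSum_single (by simp) x) (.of_forall fun s =>
    S.sum_mem fun k _ => by
      have := S.smul_mem (x k) (h k)
      rwa [← lp.single_smul, smul_eq_mul, mul_one] at this)

theorem mix (A : Set ℕ) (hA : A.Infinite) (V : Set (L 𝕜)) (hV : IsOpen V) (h : V.Nonempty) :
    Dense {x | ∃ n ∈ A, (B 𝕜)^[n] x ∈ V} := by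
  let S : Submodule 𝕜 (L 𝕜) :=
    { carrier := {x | ∀ᶠ n in atTop, (B 𝕜)^[n] x = 0}
      add_mem' := fun a b => by
        filter_upwards [a, b] with n a b
        rw [iterate_map_add, a, b, add_zero]
      zero_mem' := .of_forall fun n => iterate_map_zero _ n
      smul_mem' := fun c x a => by
        filter_upwards [a] with n a
        rw [Bs, a, smul_zero] }
  let R : Submodule 𝕜 (L 𝕜) :=
    { carrier := {x | ∃ u : ℕ → L 𝕜, Tendsto u atTop (𝓝 0) ∧ ∀ n, (B 𝕜)^[n] (u n) = x}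
      add_mem' := fun ⟨u, a, b⟩ ⟨v, c, d⟩ => ⟨fun n => u n + v n, by simpa using a.add c, fun n => by
        rw [iterate_map_add, b, d]⟩
      zero_mem' := ⟨0, tendsto_const_nhds, fun n => iterate_map_zero _ n⟩
      smul_mem' := fun c x ⟨u, a, b⟩ => ⟨fun n => c • u n, by simpa using a.const_smul c, fun n => by
        rw [Bs, b]⟩ }
  have dS := dns 𝕜 S fun k => (eventually_gt_atTop k).mono fun n hn => lp.ext (funext fun j => by
    rw [Bn, lp.single_apply_ne _ _ _ (by omega), mul_zero]; rfl)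
  have dR := dns 𝕜 R fun k => ⟨fun n => lp.single 1 (k + n) ((W k / W (k + n) : ℝ) : 𝕜), by
    rw [tendsto_zero_iff_norm_tendsto_zero]
    simp only [lp.norm_single one_pos, RCLike.norm_ofReal, abs_of_pos (div_pos (W0 _) (W0 _))]
    refine Tendsto.const_div_atTop (tendsto_atTop_add_const_right _ 1
      (tendsto_natCast_atTop_atTop.comp ?_)) _
    exact tendsto_atTop.2 fun b => (eventually_ge_atTop (b * b)).mono fun n hn =>
      Nat.le_sqrt.2 (by omega), fun n => lp.ext (funext fun j => by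
    rw [Bn]
    by_cases e : j = k
    · rw [e, lp.single_apply_self, lp.single_apply_self, ← RCLike.ofReal_mul]
      field_simp [W0, (W0 _).ne']
      simp
    · rw [lp.single_apply_ne _ _ _ (by omega), lp.single_apply_ne _ _ _ e, mul_zero])⟩
  refine dense_iff_inter_open.2 fun U hU hn => ?_
  obtain ⟨x, x1, x2⟩ := dS.exists_mem_open hU hn
  obtain ⟨z, ⟨u, u1, u2⟩, z2⟩ := dR.exists_mem_open hV h
  have e := (show Tendsto (fun n => x + u n) atTop (𝓝 x) by simpa using u1.const_add x).eventually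
    (hU.mem_nhds x2)
  obtain ⟨n, n1, n2, n3⟩ := ((Nat.frequently_atTop_iff_infinite.2 hA).and_eventually
    (e.and x1)).exists
  exact ⟨_, n2, n, n1, by rw [iterate_map_add, n3, u2, zero_add]; exact z2⟩

theorem key {I : Type*} [Countable I] (V : I → Set (L 𝕜)) (A : I → Set ℕ)
    (hV : ∀ i, IsOpen (V i) ∧ (V i).Nonempty) (hA : ∀ i, (A i).Infinite) :
    ∃ x, ∀ i, (visits (B 𝕜) x (V i) ∩ A i).Infinite := by
  obtain ⟨x, hx⟩ := (dense_iInter_of_isOpen (f := fun p : I × ℕ =>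
    {x | ∃ n ∈ A p.1 \ Iic p.2, (B 𝕜)^[n] x ∈ V p.1}) (fun p => by
      simp only [← exists_prop, ofPred_exists]
      exact isOpen_iUnion fun n => isOpen_iUnion fun _ =>
        (hV _).1.preimage ((B 𝕜).continuous.iterate n))
    fun p => mix 𝕜 _ ((hA _).sdiff (finite_Iic _)) _ (hV _).1 (hV _).2).nonempty
  refine ⟨x, fun i => infinite_of_forall_exists_gt fun N => ?_⟩
  obtain ⟨n, ⟨a, b⟩, c⟩ := mem_iInter.1 hx (i, N)
  exact ⟨n, ⟨c, a⟩, not_le.1 b⟩

theorem result : ∃ μ : ℕ → ℝ, (∀ n, 0 < μ n ∧ μ n ≤ 1) ∧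
    ∀ F, F = {A : Set ℕ | ¬ Summable (A.indicator μ)} →
    ∃ T : L 𝕜 →L[𝕜] L 𝕜, Hyp F T ∧ SumHyp 𝕜 F T ∧
      ¬ Hered F T := by
  classical
  let μ (n : ℕ) : ℝ := if IsSquare n then 1 / W n else 1
  refine ⟨μ, fun n => ?_, ?_⟩
  · simp only [μ]
    split_ifs
    · exact ⟨one_div_pos.2 (W0 n), (div_le_one (W0 n)).2 (le_add_of_nonneg_left n.sqrt.cast_nonneg)⟩
    · exact ⟨one_pos, le_rfl⟩
  rintro _ rfl
  have big : ∀ A : Set ℕ, (A ∩ {n | ¬ IsSquare n}).Infinite → ¬ Summable (A.indicator μ) :=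
    fun A hA h => by
      obtain ⟨n, ⟨a, b⟩, c⟩ := ((Nat.frequently_atTop_iff_infinite.2 hA).and_eventually
        (h.tendsto_atTop_zero.eventually (gt_mem_nhds one_pos))).exists
      simp only [indicator_of_mem a, μ, if_neg b, lt_irrefl] at c
  have fin : ∀ A : Set ℕ, ¬ Summable (A.indicator μ) → A.Infinite := fun A h hA =>
    h (summable_of_hasFiniteSupport (hA.subset support_indicator_subset))
  have : SeparableSpace (L 𝕜) := (dns 𝕜 (.span 𝕜 (range fun k => lp.single 1 k 1))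
    fun k => Submodule.subset_span ⟨k, rfl⟩).isSeparable_iff.1 (countable_range _).isSeparable.span
  refine ⟨B 𝕜, ?_, fun Y _ _ _ _ _ _ S ⟨y, hy⟩ => ?_, fun h => ?_⟩
  rotate_left
  · have hS := S.continuous
    have sq : ∀ V, IsOpen V → V.Nonempty → (visits S y V ∩ {n | ¬ IsSquare n}).Infinite := by
      intro V h1 h2 h3
      obtain ⟨a, ha⟩ := (fin _ (hy V h1 h2)).nonempty
      obtain ⟨b, hb, ab⟩ := (fin _ (hy V h1 h2)).exists_gt a
      obtain ⟨k, rfl⟩ := Nat.exists_eq_add_of_lt ab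
      have it : ∀ n, S^[k + 1] (S^[n] y) = S^[n + k + 1] y := fun n => by
        rw [← Function.iterate_add_apply]; congr 1; omega
      refine fin _ (hy (V ∩ S^[k + 1] ⁻¹' V) (h1.inter (h1.preimage (hS.iterate _)))
        ⟨_, ha, by rw [mem_preimage, it]; exact hb⟩) (((h3.union (h3.preimage
          (f := fun n => n + k + 1) fun _ _ _ _ h => by simpa using h)).union
          (finite_Iic (k * k))).subset fun n ⟨c, d⟩ => ?_)
      rw [mem_preimage, it] at d
      by_contra e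
      simp only [mem_union, mem_inter_iff, mem_ofPred_eq, mem_preimage, mem_Iic, not_or, not_and,
        not_not, not_le] at e
      obtain ⟨i, rfl⟩ := e.1.1 c
      obtain ⟨j, hj⟩ := e.1.2 d
      have : i < j := by nlinarith
      have : k < i := by nlinarith [e.2]
      nlinarith
    have := (countable_countableBasis Y).to_subtype
    have := (countable_countableBasis (L 𝕜)).to_subtype
    obtain ⟨x, hx⟩ := key 𝕜 (I := countableBasis Y × countableBasis (L 𝕜)) (fun p => p.2)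
      (fun p => visits S y p.1 ∩ {n | ¬ IsSquare n})
      (fun p => ⟨isOpen_of_mem_countableBasis p.2.2, nonempty_of_mem_countableBasis p.2.2⟩)
      fun p => sq _ (isOpen_of_mem_countableBasis p.1.2) (nonempty_of_mem_countableBasis p.1.2)
    refine ⟨(y, x), fun U hU ⟨z, hz⟩ => big _ ?_⟩
    obtain ⟨_, ⟨s, hs, t, ht, rfl⟩, -, c⟩ := ((isBasis_countableBasis Y).prod
      (isBasis_countableBasis (L 𝕜))).exists_subset_of_mem_open hz hU
    refine Infinite.mono (fun n h => mem_inter ?_ h.2.2) (hx (⟨s, hs⟩, ⟨t, ht⟩))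
    simpa [visits, Prod.map_iterate] using c (mk_mem_prod h.2.1 h.1)
  rotate_left
  · have := (countable_countableBasis (L 𝕜)).to_subtype
    obtain ⟨x, hx⟩ := key 𝕜 (I := countableBasis (L 𝕜)) (fun p => p) (fun _ => {n | ¬ IsSquare n})
      (fun p => ⟨isOpen_of_mem_countableBasis p.2, nonempty_of_mem_countableBasis p.2⟩)
      fun _ => infinite_of_forall_exists_gt fun N => ⟨(N + 1) * (N + 1) + 1, fun ⟨j, hj⟩ => by
        have : N + 1 < j := by nlinarith
        nlinarith, by nlinarith⟩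
    refine ⟨x, fun U hU ⟨z, hz⟩ => big _ ?_⟩
    obtain ⟨s, hs, -, c⟩ := (isBasis_countableBasis (L 𝕜)).exists_subset_of_mem_open hz hU
    exact Infinite.mono (fun n h => mem_inter (c h.1) h.2) (hx ⟨s, hs⟩)
  · obtain ⟨x, hx⟩ := h Unit (fun _ => {x | 1 < ‖x 0‖}) (fun _ => {n | IsSquare n})
      (fun _ => ⟨isOpen_lt continuous_const (lp.evalCLM 𝕜 (fun _ : ℕ => 𝕜) 1 0).continuous.norm,
        lp.single 1 0 2, by simp⟩) fun _ c => by
        have := c.comp_injective (i := fun j => j * j) fun _ _ h => Nat.mul_self_inj.1 h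
        refine mt (summable_nat_add_iff 1).1 Real.not_summable_one_div_natCast (this.congr fun j => ?_)
        simp [μ, W, Nat.sqrt_eq]
    refine hx () ((sm 𝕜 x).of_nonneg_of_le (fun n => indicator_nonneg (fun n _ => ?_) n) fun n => ?_)
    · simp only [μ]; split_ifs
      · exact (one_div_pos.2 (W0 n)).le
      · exact zero_le_one
    · refine indicator_apply_le' (fun ⟨a, b⟩ => ?_) fun _ => norm_nonneg _
      simp only [visits, mem_ofPred_eq, Bn, zero_add, norm_mul, RCLike.norm_ofReal] at a b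
      rw [show W 0 = 1 by simp [W], div_one, abs_of_pos (W0 n)] at a
      simp only [μ, if_pos b]
      rw [div_le_iff₀' (W0 n)]; exact a.le

end Pool.Agent.Results.MP_1d57ab_an.NotHered
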